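import Pool.Agent.W443.J6.Stms

/-! Lowering of the `x`-degree by a homogeneous automorphism. -/

set_option autoImplicit false

open MvPolynomial Pool.Agent.H938R2.JC Pool.Agent.W443.J5 Pool.Agent.W443.J6

namespace Pool.Agent.W864.J6

universe u

section

variable {k : Type u} [Field k]

/-- the weight -/
def wt (n : ℕ) (r : Fin 2 →₀ ℕ) : ℕ := r 0 + n * r 1

lemma wt_add (n : ℕ) (r t : Fin 2 →₀ ℕ) : wt n (r + t) = wt n r + wt n t := by
  unfold wt
  rw [Finsupp.add_apply, Finsupp.add_apply]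
  ring

/-- homogeneous of weight `d` -/
def WH (n d : ℕ) (P : MvPolynomial (Fin 2) k) : Prop := ∀ r, coeff r P ≠ 0 → wt n r = d

lemma WH.mul {n d e : ℕ} {P Q : MvPolynomial (Fin 2) k} (hP : WH n d P) (hQ : WH n e Q) :
    WH n (d + e) (P * Q) := by
  intro r hr
  rw [coeff_mul] at hr
  obtain ⟨x, hx, hne⟩ := Finset.exists_ne_zero_of_sum_ne_zero hr
  have hx' := Finset.HasAntidiagonal.mem_antidiagonal.1 hx
  rw [← hx', wt_add, hP _ (left_ne_zero_of_mul hne), hQ _ (right_ne_zero_of_mul hne)]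

lemma WH.C (n : ℕ) (c : k) : WH n 0 (C c : MvPolynomial (Fin 2) k) := by
  intro r hr
  rw [coeff_C] at hr
  by_cases h : 0 = r
  · rw [← h]
    simp [wt]
  · rw [if_neg h] at hr
    exact absurd rfl hr

lemma WH.pow {n d : ℕ} {P : MvPolynomial (Fin 2) k} (hP : WH n d P) (m : ℕ) :
    WH n (m * d) (P ^ m) := by
  induction m with
  | zero =>
    rw [pow_zero, Nat.zero_mul]
    have := WH.C (k := k) n 1
    rwa [map_one] at this
  | succ m ih =>
    rw [pow_succ, Nat.succ_mul]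
    exact ih.mul hP

variable {s : Fin 2 → MvPolynomial (Fin 2) k} {n : ℕ}

lemma wh_mono (h0 : WH n 1 (s 0)) (h1 : WH n n (s 1)) (r : Fin 2 →₀ ℕ) (c : k) :
    WH n (wt n r) (aeval s (monomial r c)) := by
  rw [aeval_monomial, Finsupp.prod_fintype _ _ (by simp), Fin.prod_univ_two]
  have h := (WH.C n c).mul ((h0.pow (r 0)).mul (h1.pow (r 1)))
  have e1 : 0 + (r 0 * 1 + r 1 * n) = wt n r := by
    unfold wt
    ring
  rw [e1] at h
  exact h

lemma wt_aeval (h0 : WH n 1 (s 0)) (h1 : WH n n (s 1)) (S : ℕ → Prop)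
    {P : MvPolynomial (Fin 2) k} (hP : ∀ r, coeff r P ≠ 0 → S (wt n r)) :
    ∀ r, coeff r (aeval s P) ≠ 0 → S (wt n r) := by
  intro r hr
  rw [P.as_sum, map_sum, coeff_sum] at hr
  obtain ⟨x, hx, hne⟩ := Finset.exists_ne_zero_of_sum_ne_zero hr
  rw [wh_mono h0 h1 x _ r hne]
  exact hP x (mem_support_iff.1 hx)

lemma coeff_part (w0 w1 d : ℤ) (P : MvPolynomial (Fin 2) k) (r : Fin 2 →₀ ℕ) :
    coeff r (part w0 w1 d P) = if w0 * (r 0 : ℤ) + w1 * (r 1 : ℤ) = d then coeff r P else 0 := by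
  classical
  unfold part
  rw [coeff_sum]
  simp only [coeff_monomial]
  rw [Finset.sum_ite_eq']
  simp only [Finset.mem_filter, mem_support_iff]
  by_cases h : w0 * (r 0 : ℤ) + w1 * (r 1 : ℤ) = d
  · by_cases h2 : coeff r P = 0
    · simp [h2]
    · rw [if_pos ⟨h2, h⟩, if_pos h]
  · rw [if_neg (fun h' => h h'.2), if_neg h]

lemma wt_iff (n D : ℕ) (r : Fin 2 →₀ ℕ) :
    (1 : ℤ) * (r 0 : ℤ) + (n : ℤ) * (r 1 : ℤ) = (D : ℤ) ↔ wt n r = D := by
  unfold wt
  rw [one_mul]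
  exact_mod_cast Iff.rfl

lemma wt_le (n D : ℕ) (r : Fin 2 →₀ ℕ) :
    (1 : ℤ) * (r 0 : ℤ) + (n : ℤ) * (r 1 : ℤ) ≤ (D : ℤ) ↔ wt n r ≤ D := by
  unfold wt
  rw [one_mul]
  exact_mod_cast Iff.rfl

lemma coeff_top (h0 : WH n 1 (s 0)) (h1 : WH n n (s 1)) (D : ℕ) (P : MvPolynomial (Fin 2) k)
    (r : Fin 2 →₀ ℕ) (hr : wt n r = D) :
    coeff r (aeval s P) = coeff r (aeval s (part 1 n (D : ℤ) P)) := by
  have e : P = part 1 n (D : ℤ) P + (P - part 1 n (D : ℤ) P) := by ring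
  conv_lhs => rw [e]
  rw [map_add, coeff_add]
  have hz : coeff r (aeval s (P - part 1 n (D : ℤ) P)) = 0 := by
    by_contra hne
    refine wt_aeval h0 h1 (fun x => x ≠ D) (P := P - part 1 n (D : ℤ) P) ?_ r hne hr
    intro t ht htD
    apply ht
    rw [coeff_sub, coeff_part, if_pos ((wt_iff n D t).2 htD), sub_self]
  rw [hz, add_zero]

lemma top_aeval (h0 : WH n 1 (s 0)) (h1 : WH n n (s 1)) (hinj : Function.Injective (aeval (R := k) s))
    (D : ℕ) (P : MvPolynomial (Fin 2) k) (hP : Top 1 n (D : ℤ) P) :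
    Top 1 n (D : ℤ) (aeval s P) := by
  obtain ⟨hle, t, ht, htD⟩ := hP
  refine ⟨?_, ?_⟩
  · intro r hr
    rw [wt_le]
    exact wt_aeval h0 h1 (fun x => x ≤ D) (fun r hr => (wt_le n D r).1 (hle r hr)) r hr
  · have hne : part 1 n (D : ℤ) P ≠ 0 := by
      intro h
      apply ht
      have h2 := coeff_part 1 n (D : ℤ) P t
      rw [if_pos htD, h, coeff_zero] at h2
      exact h2.symm
    have hne2 : aeval s (part 1 n (D : ℤ) P) ≠ 0 := by
      intro h
      exact hne (hinj (by rw [h, map_zero]))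
    obtain ⟨r, hr⟩ := MvPolynomial.ne_zero_iff.1 hne2
    have hrD : wt n r = D := by
      refine wt_aeval h0 h1 (fun x => x = D) ?_ r hr
      intro t ht
      rw [coeff_part] at ht
      by_contra h3
      rw [if_neg (fun h4 => h3 ((wt_iff n D t).1 h4))] at ht
      exact ht rfl
    refine ⟨r, ?_, (wt_iff n D r).2 hrD⟩
    rw [coeff_top h0 h1 D P r hrD]
    exact hr

end

theorem psb : S_SIM.{u} → S_PSB.{u} := by
  intro hSIM k _ _ _ f g a b m n i j κ s s' ha hb hab hm hbad hs1 hs2 hn htop hss' hs's hw0 hw1 hκ hj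
    hpart
  have h0 : WH n 1 (s 0) := hw0
  have h1 : WH n n (s 1) := hw1
  let σ : MvPolynomial (Fin 2) k ≃ₐ[k] MvPolynomial (Fin 2) k :=
    AlgEquiv.ofAlgHom (aeval s) (aeval s')
      (by
        apply MvPolynomial.algHom_ext
        intro l
        rw [AlgHom.comp_apply, aeval_X, AlgHom.id_apply]
        exact hss' l)
      (by
        apply MvPolynomial.algHom_ext
        intro l
        rw [AlgHom.comp_apply, aeval_X, AlgHom.id_apply]
        exact hs's l)
  have hσ : ∀ P, σ P = aeval s P := fun P => rfl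
  have hinj : Function.Injective (aeval (R := k) s) := σ.injective
  obtain ⟨⟨c, hc, hJ⟩, hng⟩ := hbad
  -- the Jacobian of the automorphism
  have hJs : ∃ c' : k, c' ≠ 0 ∧ J (s 0) (s 1) = C c' := by
    have h2 := J_aeval s (s' 0) (s' 1)
    rw [hss' 0, hss' 1] at h2
    have h3 : J (X 0 : MvPolynomial (Fin 2) k) (X 1) = 1 := by
      unfold J
      simp [pderiv_X]
    rw [h3] at h2
    have hu : IsUnit (J (s 0) (s 1)) := IsUnit.of_mul_eq_one _ (by rw [mul_comm]; exact h2.symm)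
    obtain ⟨c', hc', hc2⟩ := MvPolynomial.isUnit_iff_eq_C_of_isReduced.1 hu
    exact ⟨c', hc'.ne_zero, hc2⟩
  obtain ⟨c', hc', hJs⟩ := hJs
  have hbad' : Bad (aeval s f) (aeval s g) := by
    refine ⟨⟨c * c', mul_ne_zero hc hc', ?_⟩, fun hg => hng ?_⟩
    · rw [J_aeval, hJ, hJs, aeval_C, C_mul]
      rfl
    · exact Good.of_equiv σ hg
  have htopf : Top 1 n ((a * m : ℕ) : ℤ) (aeval s f) :=
    top_aeval h0 h1 hinj _ f (by push_cast; exact htop)
  obtain ⟨n', hn', hn'2, htg⟩ := hs1.1 1 n _ (Or.inl one_pos) htop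
  have ha0 : (a : ℤ) ≠ 0 := by exact_mod_cast (show a ≠ 0 by omega)
  have hnm : n' = (m : ℤ) := (mul_left_cancel₀ ha0 hn'2).symm
  have htopg : Top 1 n ((b * m : ℕ) : ℤ) (aeval s g) :=
    top_aeval h0 h1 hinj _ g (by push_cast; rw [← hnm]; exact htg)
  have hsim := hSIM k _ _ hbad' a b (by omega) (by omega) hab 1 n m (Or.inl one_pos)
    (by rw [← Nat.cast_mul]; exact htopf) (by rw [← Nat.cast_mul]; exact htopg)
  -- the x-degree
  obtain ⟨d, hd⟩ : ∃ d : ℕ, Top 1 0 (d : ℤ) (aeval s f) := by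
    have hne : (aeval s f).support.Nonempty := by
      obtain ⟨-, t, ht, -⟩ := htopf
      exact ⟨t, mem_support_iff.2 ht⟩
    obtain ⟨t, ht, hmax⟩ := Finset.exists_max_image _ (fun r : Fin 2 →₀ ℕ => r 0) hne
    refine ⟨t 0, ?_, t, mem_support_iff.1 ht, by ring⟩
    intro r hr
    have := hmax r (mem_support_iff.2 hr)
    have h2 : ((r 0 : ℕ) : ℤ) ≤ ((t 0 : ℕ) : ℤ) := by exact_mod_cast this
    linarith
  have hlt : d < a * m := by
    obtain ⟨-, t, ht, htd⟩ := hd
    have htd' : t 0 = d := by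
      have : ((t 0 : ℕ) : ℤ) = d := by linarith
      exact_mod_cast this
    have h2 := (wt_le n _ t).1 (htopf.1 t ht)
    unfold wt at h2
    by_contra hcon
    have h3 : n * t 1 = 0 := by omega
    have h4 : t 1 = 0 := by
      rcases Nat.mul_eq_zero.1 h3 with h | h
      · omega
      · exact h
    have h5 : wt n t = a * m := by
      unfold wt
      rw [h4]
      omega
    rw [coeff_top h0 h1 (a * m) f t h5] at ht
    push_cast at ht
    rw [hpart] at ht
    apply ht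
    rw [mul_assoc, coeff_C_mul]
    have h6 : (X 0 ^ i * X 1 ^ j : MvPolynomial (Fin 2) k) = monomial (e i j) 1 := by
      unfold Pool.Agent.H938R2.JC.e
      rw [X_pow_eq_monomial, X_pow_eq_monomial, monomial_mul, one_mul]
    rw [h6, coeff_monomial, if_neg, mul_zero]
    intro h7
    have := congrArg (fun r : Fin 2 →₀ ℕ => r 1) h7
    simp only [e_one] at this
    omega
  obtain ⟨m', hm', hm'2, -⟩ := hsim.1.1 1 0 _ (Or.inl one_pos) hd
  obtain ⟨M, rfl⟩ : ∃ M : ℕ, m' = M := ⟨m'.toNat, by omega⟩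
  refine ⟨aeval s f, aeval s g, M, by omega, ?_, hbad', hsim.1, hsim.2, ?_⟩
  · have h2 : d = a * M := by exact_mod_cast hm'2
    rw [h2] at hlt
    exact lt_of_mul_lt_mul_left hlt (Nat.zero_le a)
  · rw [← hm'2]
    exact hd

end Pool.Agent.W864.J6
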